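import Pool.Agent.H47S.X811ee8Quasi

namespace Pool.Agent.Results.MP_811ee8_lc.Upper

open Pool.Agent.Results.MP_811ee8_lc.Quasi
open Filter Topology
open Prog

theorem result :
    (∃ τ, Correct τ ∧
      (∀ n N Ω, (τ n N Ω).len ≤ 27 * (n + 1) * (2 * N) ^ (Nat.log 2 N + 2)) ∧
      ∀ c δ : ℝ, 0 < c → 0 < δ → ∀ᶠ N : ℕ in atTop, ∀ n ≤ N, ∀ Ω,
        ((τ n N Ω).len : ℝ) < 2 ^ (c * (N : ℝ) ^ δ)) :=
  parts.1

end Pool.Agent.Results.MP_811ee8_lc.Upper
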